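import Mathlib
import Pool.Agent.W2helper24.TQ.Stm2
import Pool.Agent.Y350.CT.REC
import Pool.Agent.Y274.CT.ExiCnt

/-!
# Project TQ, piece H1: the cubic residue symbol of `D` as a character modulo `D`
-/

set_option autoImplicit false
set_option linter.unusedSectionVars false
set_option linter.unusedVariables false

namespace Pool.Agent.W2helper84.TQ.H1

open Pool.Agent.Y692.QS (Ei w nr toC nr_mul nr_nat nr_nonneg nr_neg nr_zero_iff w_cube toC_inj)
open Pool.Agent.Y715.T.Rs (eq0 eq0_coe quo map_span card_quo)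
open Pool.Agent.Y715.T.Rec (cs nn w_add w_pow_cube)
open Pool.Agent.Y715.T.RecG (Pq cs_of cs_spec cs_congr cs_mul cs_one cs_pow cs_prod cs_neg)
open Pool.Agent.Y715.T.RecC (nr_nn unit_form exists_prim)
open Pool.Agent.Y703.CT (Dt pD Base)
open Pool.Agent.Y696 (eis et unit_iff)
open Pool.Agent.W192.HK (sp)
open scoped Classical

/-! ### The additive symbol -/

section add

variable {J : Type} [Fintype J] {π : J → Ei} {e : J → ZMod 3}

/-- the additive symbol -/
noncomputable def ss (π : J → Ei) (e : J → ZMod 3) (x : Ei) : ZMod 3 := ∑ j, e j * cs (π j) x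

lemma ss_mul (h : Dt π e) {x y : Ei} (hx : ∀ j, ¬ π j ∣ x) (hy : ∀ j, ¬ π j ∣ y) :
    ss π e (x * y) = ss π e x + ss π e y := by
  unfold ss
  rw [← Finset.sum_add_distrib]
  refine Finset.sum_congr rfl fun j _ => ?_
  rw [cs_mul (h.pq j).prime (h.pq j).norm (hx j) (hy j), mul_add]

lemma ss_one (h : Dt π e) : ss π e 1 = 0 := by
  unfold ss
  refine Finset.sum_eq_zero fun j _ => ?_
  rw [cs_one (h.pq j).prime (h.pq j).norm, mul_zero]

lemma ss_congr (h : Dt π e) {x y : Ei} (hx : ∀ j, ¬ π j ∣ x) (hxy : ∀ j, π j ∣ x - y) :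
    ss π e x = ss π e y := by
  unfold ss
  refine Finset.sum_congr rfl fun j _ => ?_
  rw [cs_congr (h.pq j).prime (h.pq j).norm (hx j) (hxy j)]

lemma ss_neg (h : Dt π e) {x : Ei} (hx : ∀ j, ¬ π j ∣ x) : ss π e (-x) = ss π e x := by
  unfold ss
  refine Finset.sum_congr rfl fun j _ => ?_
  rw [cs_neg (h.pq j).prime (h.pq j).norm (hx j)]

lemma cs_w (h : Dt π e) (j : J) : cs (π j) w = (nn (π j) : ZMod 3) := by
  apply cs_of (h.pq j).prime (h.pq j).norm
  have h1 : w ^ nn (π j) = w ^ ((nn (π j) : ZMod 3)).val := by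
    rw [ZMod.val_natCast]
    conv_lhs => rw [← Nat.div_add_mod (nn (π j)) 3]
    rw [pow_add, pow_mul, w_cube, one_pow, one_mul]
  rw [h1, sub_self]
  exact dvd_zero _

lemma norm_prod (h : Dt π e) (S : Finset J) : ∃ t : ℤ,
    nr (∏ j ∈ S, π j ^ (e j).val) = 3 * t + 1 ∧ (t : ZMod 3) = ∑ j ∈ S, e j * cs (π j) w := by
  induction S using Finset.induction_on with
  | empty => exact ⟨0, by simp [Pool.Agent.Y692.QS.nr_one], by simp⟩
  | insert i S hi ih =>
    obtain ⟨t, ht, ht'⟩ := ih
    rw [Finset.prod_insert hi, nr_mul, ht]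
    obtain ⟨r, hr, hr'⟩ : ∃ r : ℤ, nr (π i ^ (e i).val) = 3 * r + 1 ∧
        (r : ZMod 3) = e i * cs (π i) w := by
      have h1 : nr (π i) = 3 * (nn (π i) : ℤ) + 1 := by
        have h2 := nr_nn (h.pq i).prime (h.pq i).norm
        have h3 := nr_nonneg (π i)
        omega
      rw [cs_w h i]
      have h4 : ∀ k : ℕ, ∃ r : ℤ, nr (π i ^ k) = 3 * r + 1 ∧
          (r : ZMod 3) = (k : ZMod 3) * (nn (π i) : ZMod 3) := by
        intro k
        induction k with
        | zero => exact ⟨0, by simp [Pool.Agent.Y692.QS.nr_one], by simp⟩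
        | succ k ihk =>
          obtain ⟨r, hr, hr'⟩ := ihk
          refine ⟨3 * r * nn (π i) + r + nn (π i), ?_, ?_⟩
          · rw [pow_succ, nr_mul, hr, h1]
            ring
          · push_cast
            have h5 : (3 : ZMod 3) = 0 := rfl
            rw [hr', h5]
            ring
      obtain ⟨r, hr, hr'⟩ := h4 (e i).val
      refine ⟨r, hr, ?_⟩
      rw [hr', ZMod.natCast_zmod_val]
    rw [hr]
    refine ⟨3 * r * t + r + t, by ring, ?_⟩
    rw [Finset.sum_insert hi, ← hr', ← ht']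
    push_cast
    have h5 : (3 : ZMod 3) = 0 := rfl
    rw [h5]
    ring

/-- the symbol of the units -/
lemma ss_w (h : Dt π e) {D : ℕ} (hD : (D : Ei) = pD π e ∨ (D : Ei) = -pD π e)
    (h9 : D % 9 = 1 ∨ D % 9 = 8) : ss π e w = 0 := by
  obtain ⟨t, ht, ht'⟩ := norm_prod h Finset.univ
  unfold ss
  rw [← ht']
  have h1 : (D : ℤ) ^ 2 = 3 * t + 1 := by
    rw [← ht, ← nr_nat]
    rcases hD with hD | hD
    · rw [hD]; rfl
    · rw [hD, nr_neg]; rfl
  have h2 : (3 : ℤ) ∣ t := by
    have h3 : (D : ℤ) ^ 2 % 9 = 1 := by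
      rcases h9 with h9 | h9
      · have h4 : (D : ℤ) % 9 = 1 := by omega
        rw [pow_two, Int.mul_emod, h4]
        norm_num
      · have h4 : (D : ℤ) % 9 = 8 := by omega
        rw [pow_two, Int.mul_emod, h4]
        norm_num
    omega
  exact (ZMod.intCast_zmod_eq_zero_iff_dvd t 3).2 (by exact_mod_cast h2)

lemma not_dvd_w (h : Dt π e) (j : J) : ¬ π j ∣ w := fun h1 =>
  (h.pq j).prime.not_isUnit (isUnit_of_dvd_unit h1 (Pool.Agent.Y692.QS.isUnit_iff.2 (by decide)))

lemma ss_unit (h : Dt π e) (hw : ss π e w = 0) {u : Ei} (hu : IsUnit u) : ss π e u = 0 := by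
  have h1 : ∀ c : ZMod 3, ss π e (w ^ c.val) = 0 := by
    intro c
    have h2 : ss π e (w ^ c.val) = (c.val : ZMod 3) * ss π e w := by
      unfold ss
      rw [Finset.mul_sum]
      refine Finset.sum_congr rfl fun j _ => ?_
      rw [cs_pow (h.pq j).prime (h.pq j).norm (not_dvd_w h j)]
      ring
    rw [h2, hw, mul_zero]
  obtain ⟨c, hc | hc⟩ := unit_form hu
  · rw [hc, h1]
  · rw [hc, ss_neg h (fun j h2 => not_dvd_w h j ((h.pq j).prime.dvd_of_dvd_pow h2)), h1]

end add

/-! ### The divisors of `D` -/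

section D

variable {J : Type} [Fintype J] {π : J → Ei} {e : J → ZMod 3} {D : ℕ}

lemma pi_dvd (h : Dt π e) (hD : (D : Ei) = pD π e ∨ (D : Ei) = -pD π e) (j : J) :
    π j ∣ (D : Ei) := by
  have h1 : π j ∣ pD π e := by
    refine dvd_trans (dvd_pow_self _ ?_) (Finset.dvd_prod_of_mem _ (Finset.mem_univ j))
    intro h0
    exact h.e0 j ((ZMod.val_eq_zero _).1 h0)
  rcases hD with hD | hD
  · rwa [hD]
  · rw [hD]
    exact (dvd_neg).2 h1

lemma not_dvd_of_cop (h : Dt π e) (hD : (D : Ei) = pD π e ∨ (D : Ei) = -pD π e) {a : eis}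
    (ha : IsCoprime a (D : eis)) (j : J) : ¬ π j ∣ eq0.symm a := by
  intro h1
  obtain ⟨s, t, hst⟩ := ha
  have h2 : eq0.symm s * eq0.symm a + eq0.symm t * (D : Ei) = 1 := by
    have h3 := congrArg eq0.symm hst
    rwa [map_add, map_mul, map_mul, map_natCast, map_one] at h3
  refine (h.pq j).prime.not_isUnit (isUnit_of_dvd_one ?_)
  rw [← h2]
  exact dvd_add (Dvd.dvd.mul_left h1 _) (Dvd.dvd.mul_left (pi_dvd h hD j) _)

/-- the value of the character -/
noncomputable def vv (π : J → Ei) (e : J → ZMod 3) (x : Ei) : ℂ := toC (w ^ (-ss π e x).val)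

lemma vv_mul (h : Dt π e) {x y : Ei} (hx : ∀ j, ¬ π j ∣ x) (hy : ∀ j, ¬ π j ∣ y) :
    vv π e (x * y) = vv π e x * vv π e y := by
  unfold vv
  rw [ss_mul h hx hy, neg_add, w_add, map_mul]

lemma vv_cube (x : Ei) : vv π e x ^ 3 = 1 := by
  unfold vv
  rw [← map_pow, w_pow_cube, map_one]

lemma vv_zero {x : Ei} (hx : ss π e x = 0) : vv π e x = 1 := by
  unfold vv
  rw [hx, neg_zero, ZMod.val_zero, pow_zero, map_one]

/-- the character -/
noncomputable def ch (h : Dt π e) (hD : (D : Ei) = pD π e ∨ (D : Ei) = -pD π e) :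
    MulChar (eis ⧸ (sp (D : eis) : Ideal eis)) ℂ where
  toFun q := if IsUnit q then vv π e (eq0.symm (Quotient.out q)) else 0
  map_one' := by
    rw [if_pos isUnit_one]
    have h1 : Ideal.Quotient.mk (sp (D : eis) : Ideal eis)
        (Quotient.out (1 : eis ⧸ (sp (D : eis) : Ideal eis))) = 1 := Ideal.Quotient.mk_out _
    have hc : IsCoprime (Quotient.out (1 : eis ⧸ (sp (D : eis) : Ideal eis))) (D : eis) := by
      rw [← unit_iff, h1]
      exact isUnit_one
    apply vv_zero
    rw [ss_congr h (y := 1) (not_dvd_of_cop h hD hc), ss_one h]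
    intro j
    rw [← map_one (Ideal.Quotient.mk (sp (D : eis) : Ideal eis)),
      Ideal.Quotient.mk_eq_mk_iff_sub_mem, Ideal.mem_span_singleton] at h1
    have h2 := map_dvd (eq0.symm : eis ≃+* Ei) h1
    rw [map_sub, map_natCast, map_one, map_one] at h2
    exact dvd_trans (pi_dvd h hD j) h2
  map_mul' p q := by
    by_cases hp : IsUnit p
    · by_cases hq : IsUnit q
      · rw [if_pos (hp.mul hq), if_pos hp, if_pos hq]
        have h1 : Ideal.Quotient.mk (sp (D : eis) : Ideal eis) (Quotient.out (p * q)) = p * q :=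
          Ideal.Quotient.mk_out _
        have h2 : Ideal.Quotient.mk (sp (D : eis) : Ideal eis) (Quotient.out p) = p :=
          Ideal.Quotient.mk_out _
        have h3 : Ideal.Quotient.mk (sp (D : eis) : Ideal eis) (Quotient.out q) = q :=
          Ideal.Quotient.mk_out _
        have hc1 : IsCoprime (Quotient.out (p * q)) (D : eis) := by
          rw [← unit_iff, h1]
          exact hp.mul hq
        have hc2 : IsCoprime (Quotient.out p) (D : eis) := by
          rw [← unit_iff, h2]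
          exact hp
        have hc3 : IsCoprime (Quotient.out q) (D : eis) := by
          rw [← unit_iff, h3]
          exact hq
        rw [← vv_mul h (not_dvd_of_cop h hD hc2) (not_dvd_of_cop h hD hc3)]
        unfold vv
        rw [ss_congr h (not_dvd_of_cop h hD hc1)]
        intro j
        have h4 : Ideal.Quotient.mk (sp (D : eis) : Ideal eis) (Quotient.out (p * q)) =
            Ideal.Quotient.mk (sp (D : eis) : Ideal eis) (Quotient.out p * Quotient.out q) := by
          rw [map_mul, h1, h2, h3]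
        rw [Ideal.Quotient.mk_eq_mk_iff_sub_mem, Ideal.mem_span_singleton] at h4
        have h5 := map_dvd (eq0.symm : eis ≃+* Ei) h4
        rw [map_sub, map_mul, map_natCast] at h5
        exact dvd_trans (pi_dvd h hD j) h5
      · rw [if_neg hq, mul_zero, if_neg]
        exact fun hn => hq (isUnit_of_mul_isUnit_right hn)
    · rw [if_neg hp, zero_mul, if_neg]
      exact fun hn => hp (isUnit_of_mul_isUnit_left hn)
  map_nonunit' q hq := if_neg hq

lemma et_ch (h : Dt π e) (hD : (D : Ei) = pD π e ∨ (D : Ei) = -pD π e) {a : eis}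
    (ha : IsCoprime a (D : eis)) : et (ch h hD) a = vv π e (eq0.symm a) := by
  have hu : IsUnit (Ideal.Quotient.mk (sp (D : eis) : Ideal eis) a) := (unit_iff a).2 ha
  show (if IsUnit (Ideal.Quotient.mk (sp (D : eis) : Ideal eis) a) then
    vv π e (eq0.symm (Quotient.out (Ideal.Quotient.mk (sp (D : eis) : Ideal eis) a))) else 0) = _
  rw [if_pos hu]
  have h1 : Ideal.Quotient.mk (sp (D : eis) : Ideal eis)
      (Quotient.out (Ideal.Quotient.mk (sp (D : eis) : Ideal eis) a)) =
      Ideal.Quotient.mk (sp (D : eis) : Ideal eis) a := Ideal.Quotient.mk_out _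
  have hc : IsCoprime (Quotient.out (Ideal.Quotient.mk (sp (D : eis) : Ideal eis) a))
      (D : eis) := by
    rw [← unit_iff, h1]
    exact hu
  unfold vv
  rw [ss_congr h (not_dvd_of_cop h hD hc)]
  intro j
  rw [Ideal.Quotient.mk_eq_mk_iff_sub_mem, Ideal.mem_span_singleton] at h1
  have h2 := map_dvd (eq0.symm : eis ≃+* Ei) h1
  rw [map_sub, map_natCast] at h2
  exact dvd_trans (pi_dvd h hD j) h2

lemma ch_cube (h : Dt π e) (hD : (D : Ei) = pD π e ∨ (D : Ei) = -pD π e) :
    (ch h hD) ^ 3 = 1 := by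
  apply MulChar.ext
  intro a
  rw [MulChar.pow_apply_coe, MulChar.one_apply_coe]
  obtain ⟨b, hb⟩ := Ideal.Quotient.mk_surjective (a : eis ⧸ (sp (D : eis) : Ideal eis))
  have hu : IsCoprime b (D : eis) := by
    rw [← unit_iff, hb]
    exact a.isUnit
  have h1 := et_ch h hD hu
  unfold et at h1
  rw [hb] at h1
  rw [h1, vv_cube]

end D

/-! ### The piece -/

lemma conj_w (c : ZMod 3) : (starRingEnd ℂ) (toC (w ^ c.val)) = toC (w ^ (-c).val) := by
  have h3 : star (w ^ c.val : Ei) = w ^ (-c).val := by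
    rw [star_pow, Pool.Agent.Y692.QS.star_w]
    revert c
    decide
  rw [← h3, Pool.Agent.Y692.QS.toC_star]

lemma card_eis (p : Ei) : Nat.card (eis ⧸ (sp (eq0 p) : Ideal eis)) = (nr p).natAbs := by
  have h1 := card_quo p
  have h2 := quo (Ideal.span {p})
  rw [map_span] at h2
  rw [Nat.card_congr h2.toEquiv] at h1
  have h3 : (Nat.card (eis ⧸ (sp (eq0 p) : Ideal eis)) : ℤ) = nr p := h1
  omega

theorem piece : Pool.Agent.W2helper24.TQ.P_H1 := by
  intro D hD
  obtain ⟨hD0, hDp, hD9⟩ := hD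
  have hB : Base D := by
    refine ⟨hD0.ne', by omega, fun p hp h => ?_⟩
    exact (hDp p hp (dvd_trans (dvd_pow_self p (by norm_num)) h)).2 h
  obtain ⟨n, π, e, hdt, hDe⟩ := Pool.Agent.Y274.CT.t_exi D hB
  have hw := ss_w hdt hDe hD9
  refine ⟨ch hdt hDe, ch_cube hdt hDe, fun u hu => ?_, fun P hP hP3 hPD => ?_⟩
  · have hc : IsCoprime u (D : eis) := by
      obtain ⟨v, hv⟩ := hu
      exact ⟨((v⁻¹ : eisˣ) : eis), 0, by rw [← hv, Units.inv_mul, zero_mul, add_zero]⟩
    rw [et_ch hdt hDe hc]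
    exact vv_zero (ss_unit hdt hw (hu.map (eq0.symm : eis ≃+* Ei)))
  · obtain ⟨p, rfl⟩ := eq0.surjective P
    have hp : Prime p := (MulEquiv.prime_iff (eq0 : Ei ≃* eis)).1 hP
    have hp3 : ¬ p ∣ 3 := by
      intro h
      have h1 := map_dvd (eq0 : Ei ≃+* eis) h
      rw [map_ofNat] at h1
      exact hP.not_isUnit (hP3.isUnit_of_dvd' (dvd_refl _) h1)
    obtain ⟨u, hu, hu3⟩ := exists_prim hp hp3
    have hup : Prime (u * p) := by
      obtain ⟨v, rfl⟩ := hu
      exact (Associated.prime_iff ⟨v, mul_comm _ _⟩).1 hp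
    have hq : Pq (u * p) := ⟨hup, hu3⟩
    have hnj : ∀ j, ¬ π j ∣ p := fun j => by
      have h1 := not_dvd_of_cop hdt hDe hPD j
      rwa [RingEquiv.symm_apply_apply] at h1
    have hnu : ∀ j, ¬ π j ∣ u := fun j h1 =>
      (hdt.pq j).prime.not_isUnit (isUnit_of_dvd_unit h1 hu)
    have hpD : ¬ p ∣ (D : Ei) := by
      intro h
      have h1 := map_dvd (eq0 : Ei ≃+* eis) h
      rw [map_natCast] at h1
      exact hP.not_isUnit (hPD.isUnit_of_dvd' (dvd_refl _) h1)
    have hqD : ¬ u * p ∣ (D : Ei) := fun h => hpD (dvd_trans (Dvd.intro_left u rfl) h)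
    have hqj : ∀ j, ¬ u * p ∣ π j := fun j h => hqD (dvd_trans h (pi_dvd hdt hDe j))
    -- the reciprocity
    have hrec : cs (u * p) (D : Ei) = ss π e p := by
      have h1 : cs (u * p) (pD π e) = ss π e (u * p) := by
        unfold pD ss
        rw [cs_prod hq.prime hq.norm]
        · refine Finset.sum_congr rfl fun j _ => ?_
          rw [cs_pow hq.prime hq.norm (hqj j), ZMod.natCast_zmod_val,
            Pool.Agent.Y350.CT.rec (π j) (u * p) (hdt.pq j) hq (hqj j)]
        · exact fun j _ h => hqj j (hq.prime.dvd_of_dvd_pow h)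
      have h2 : cs (u * p) (D : Ei) = cs (u * p) (pD π e) := by
        rcases hDe with h | h
        · rw [h]
        · rw [h, cs_neg hq.prime hq.norm]
          intro h3
          apply hqD
          rw [h]
          exact (dvd_neg).2 h3
      rw [h2, h1, ss_mul hdt hnu hnj, ss_unit hdt hw hu, zero_add]
    have hspec := cs_spec hq.prime hq.norm hqD
    rw [hrec] at hspec
    have hnn : nn (u * p) = nn p := by
      unfold nn
      rw [nr_mul, Pool.Agent.Y692.QS.isUnit_iff.1 hu, one_mul]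
    refine ⟨eq0 (w ^ (ss π e p).val), ?_, ?_, ?_⟩
    · rw [← map_pow, w_pow_cube, map_one]
    · have h1 : p ∣ (D : Ei) ^ nn p - w ^ (ss π e p).val := by
        rw [← hnn]
        exact dvd_trans (Dvd.intro_left u rfl) hspec
      have h2 := map_dvd (eq0 : Ei ≃+* eis) h1
      rw [map_sub, map_pow, map_natCast] at h2
      rw [card_eis]
      exact h2
    · rw [et_ch hdt hDe hPD, RingEquiv.symm_apply_apply, eq0_coe, conj_w]
      rfl

end Pool.Agent.W2helper84.TQ.H1
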