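import Mathlib
import Pool.Agent.W2helper42.TQ.Stm

/-!
# Piece FG of project TQ
-/

set_option autoImplicit false

namespace Pool.Agent.W2helper84.TQ

open Pool.Agent.W2helper42.TQ

theorem s_FG : S_FG := by
  refine ⟨?_, ?_, ?_, ?_, ?_, ?_⟩
  · rintro p R S _ _ f hf ⟨g, hg⟩
    exact ⟨f.comp g, hf.comp hg⟩
  · intro R S _ _ f hf
    exact RingHom.FiniteType.of_surjective f hf
  · intro R _ a
    have : Algebra.FiniteType R (Localization.Away a) :=
      IsLocalization.finiteType_of_monoid_fg (Submonoid.powers a) (Localization.Away a)
    rwa [RingHom.finiteType_algebraMap]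
  · intro R _
    have : Algebra.FiniteType R (Polynomial R) := inferInstance
    have h := (RingHom.finiteType_algebraMap (A := R) (B := Polynomial R)).2 this
    exact h
  · intro R σ _ _
    have : Algebra.FiniteType R (MvPolynomial σ R) := inferInstance
    have h := (RingHom.finiteType_algebraMap (A := R) (B := MvPolynomial σ R)).2 this
    exact h
  · intro R _ f
    have : Algebra.FiniteType R (AdjoinRoot f) := inferInstance
    have h := (RingHom.finiteType_algebraMap (A := R) (B := AdjoinRoot f)).2 this
    exact h

end Pool.Agent.W2helper84.TQ
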