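import Mathlib
import Pool.Agent.W2helper42.TQ.Stm

/-!
# Piece LIN (and ELIM) of project TQ
-/

set_option autoImplicit false

namespace Pool.Agent.W2helper84.TQ

open Pool.Agent.W2helper42.TQ Polynomial

theorem lin_ideal (B : Type) [CommRing B] (l h : B) :
    Ideal.span {C l * X + C h} ⊔ Ideal.span {C l} =
      (Ideal.span {l, h}).map (C : B →+* B[X]) := by
  rw [Ideal.map_span, ← Ideal.span_union]
  apply le_antisymm
  · rw [Ideal.span_le]
    rintro x (hx | hx)
    · rw [Set.mem_singleton_iff] at hx
      subst hx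
      refine Ideal.add_mem _ (Ideal.mul_mem_right _ _ (Ideal.subset_span ?_)) (Ideal.subset_span ?_)
      · exact ⟨l, by simp, rfl⟩
      · exact ⟨h, by simp, rfl⟩
    · rw [Set.mem_singleton_iff] at hx
      subst hx
      exact Ideal.subset_span ⟨l, by simp, rfl⟩
  · rw [Ideal.span_le]
    rintro x ⟨y, hy, rfl⟩
    have hl : C l ∈ Ideal.span ({C l * X + C h} ∪ {C l} : Set B[X]) :=
      Ideal.subset_span (Or.inr rfl)
    rcases hy with hy | hy
    · subst hy
      exact hl
    · rw [Set.mem_singleton_iff] at hy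
      subst hy
      have h1 : C l * X + C y ∈ Ideal.span ({C l * X + C y} ∪ {C l} : Set B[X]) :=
        Ideal.subset_span (Or.inl rfl)
      have h2 := Ideal.sub_mem _ h1 (Ideal.mul_mem_right X _ hl)
      rwa [add_sub_cancel_left] at h2

theorem lin1 (B : Type) [CommRing B] (l h : B) :
    Nonempty (((B[X] ⧸ Ideal.span {C l * X + C h}) ⧸
        Ideal.span {Ideal.Quotient.mk (Ideal.span {C l * X + C h}) (C l)}) ≃+*
      Polynomial (B ⧸ Ideal.span {l, h})) := by
  have e1 : Ideal.span {Ideal.Quotient.mk (Ideal.span {C l * X + C h}) (C l)} =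
      (Ideal.span {C l}).map (Ideal.Quotient.mk (Ideal.span {C l * X + C h})) := by
    rw [Ideal.map_span, Set.image_singleton]
  exact ⟨(Ideal.quotEquivOfEq e1).trans ((DoubleQuot.quotQuotEquivQuotSup _ _).trans
    ((Ideal.quotEquivOfEq (lin_ideal B l h)).trans
      (Ideal.polynomialQuotientEquivQuotientPolynomial _).symm))⟩

theorem lin2 (B : Type) [CommRing B] (l h : B) :
    Nonempty (Localization.Away (Ideal.Quotient.mk (Ideal.span {C l * X + C h}) (C l)) ≃+*
      Localization.Away l) := by
  set I : Ideal B[X] := Ideal.span {C l * X + C h} with hI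
  set L := Localization.Away (Ideal.Quotient.mk I (C l)) with hL
  set M := Localization.Away l with hM
  let ι : B →+* M := algebraMap B M
  have hu : IsUnit (ι l) := IsLocalization.Away.algebraMap_isUnit l
  obtain ⟨u, hu'⟩ := hu
  let a : M := -(ι h * (↑(u⁻¹) : M))
  have ha : ι l * a + ι h = 0 := by
    show ι l * -(ι h * (↑(u⁻¹) : M)) + ι h = 0
    rw [← hu']
    have : (u : M) * (↑(u⁻¹) : M) = 1 := u.mul_inv
    linear_combination (-ι h) * this
  let φ0 : B[X] →+* M := eval₂RingHom ι a
  have hφ0 : ∀ x ∈ I, φ0 x = 0 := by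
    intro x hx
    rw [hI, Ideal.mem_span_singleton'] at hx
    obtain ⟨y, rfl⟩ := hx
    rw [map_mul]
    have : φ0 (C l * X + C h) = 0 := by
      simp only [φ0, coe_eval₂RingHom, eval₂_add, eval₂_mul, eval₂_C, eval₂_X]
      exact ha
    rw [this, mul_zero]
  let φ : (B[X] ⧸ I) →+* M := Ideal.Quotient.lift I φ0 hφ0
  have hφC : ∀ b : B, φ (Ideal.Quotient.mk I (C b)) = ι b := by
    intro b
    simp [φ, φ0]
  have hφX : φ (Ideal.Quotient.mk I X) = a := by
    simp [φ, φ0]
  have hφu : IsUnit (φ (Ideal.Quotient.mk I (C l))) := by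
    rw [hφC, ← hu']
    exact u.isUnit
  let F : L →+* M := IsLocalization.Away.lift (Ideal.Quotient.mk I (C l)) hφu
  let κ : (B[X] ⧸ I) →+* L := algebraMap _ _
  let ψ : B →+* L := κ.comp ((Ideal.Quotient.mk I).comp C)
  have hψu : IsUnit (ψ l) := IsLocalization.Away.algebraMap_isUnit (Ideal.Quotient.mk I (C l))
  let G : M →+* L := IsLocalization.Away.lift l hψu
  have hF : ∀ x, F (κ x) = φ x := fun x => IsLocalization.Away.lift_eq _ hφu x
  have hG : ∀ x, G (ι x) = ψ x := fun x => IsLocalization.Away.lift_eq _ hψu x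
  have hFG : F.comp G = RingHom.id M := by
    apply IsLocalization.ringHom_ext (Submonoid.powers l)
    ext b
    show F (G (ι b)) = ι b
    rw [hG]
    show F (κ (Ideal.Quotient.mk I (C b))) = ι b
    rw [hF, hφC]
  have hGF : G.comp F = RingHom.id L := by
    apply IsLocalization.ringHom_ext (Submonoid.powers (Ideal.Quotient.mk I (C l)))
    apply Ideal.Quotient.ringHom_ext
    apply Polynomial.ringHom_ext
    · intro b
      show G (F (κ (Ideal.Quotient.mk I (C b)))) = κ (Ideal.Quotient.mk I (C b))
      rw [hF, hφC, hG]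
      rfl
    · show G (F (κ (Ideal.Quotient.mk I X))) = κ (Ideal.Quotient.mk I X)
      rw [hF, hφX]
      have h1 : ψ l * G a + ψ h = 0 := by
        rw [← hG, ← hG, ← map_mul, ← map_add, ha, map_zero]
      have h2 : ψ l * κ (Ideal.Quotient.mk I X) + ψ h = 0 := by
        show κ (Ideal.Quotient.mk I (C l)) * κ (Ideal.Quotient.mk I X) +
          κ (Ideal.Quotient.mk I (C h)) = 0
        rw [← map_mul, ← map_mul, ← map_add, ← map_add]
        have : Ideal.Quotient.mk I (C l * X + C h) = 0 := by
          rw [Ideal.Quotient.eq_zero_iff_mem, hI]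
          exact Ideal.mem_span_singleton_self _
        rw [this, map_zero]
      exact hψu.mul_left_cancel (by linear_combination h1 - h2)
  exact ⟨RingEquiv.ofRingHom F G hFG hGF⟩

theorem s_LIN : S_LIN := fun B _ l h => ⟨lin1 B l h, lin2 B l h⟩

theorem s_ELIM : S_ELIM := by
  intro B _ e e' m h hee
  set a : B := -(e' * m) with ha
  have key : Ideal.span {C e * X + C m, h} = Ideal.span {C (h.eval a), X - C a} := by
    have e1 : C e * X + C m = C e * (X - C a) := by
      have h0 : e * a = -m := by
        rw [ha]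
        linear_combination (-m) * hee
      rw [mul_sub, ← C_mul, h0]
      simp
    have e2 : X - C a = C e' * (C e * X + C m) := by
      rw [e1, ← mul_assoc, ← C_mul, mul_comm e' e, hee, C_1, one_mul]
    have hdvd : X - C a ∣ h - C (h.eval a) := Polynomial.X_sub_C_dvd_sub_C_eval
    obtain ⟨w, hw⟩ := hdvd
    apply le_antisymm
    · rw [Ideal.span_le]
      rintro x hx
      rcases hx with hx | hx
      · rw [hx, e1]
        exact Ideal.mul_mem_left _ _ (Ideal.subset_span (Or.inr rfl))
      · rw [Set.mem_singleton_iff] at hx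
        subst hx
        have h3 : x = C (x.eval a) + (X - C a) * w := by
          rw [← hw]; ring
        rw [h3]
        refine Ideal.add_mem _ ?_ (Ideal.mul_mem_right _ _ (Ideal.subset_span (Or.inr rfl)))
        rw [← h3]
        exact Ideal.subset_span (Or.inl rfl)
    · rw [Ideal.span_le]
      have hX : X - C a ∈ Ideal.span {C e * X + C m, h} := by
        rw [e2]
        exact Ideal.mul_mem_left _ _ (Ideal.subset_span (Or.inl rfl))
      rintro x hx
      rcases hx with hx | hx
      · rw [hx]
        have h3 : C (h.eval a) = h - (X - C a) * w := by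
          rw [← hw]; ring
        rw [h3]
        exact Ideal.sub_mem _ (Ideal.subset_span (Or.inr rfl)) (Ideal.mul_mem_right _ _ hX)
      · rw [Set.mem_singleton_iff] at hx
        rw [hx]
        exact hX
  exact ⟨(Ideal.quotEquivOfEq key).trans
    (Polynomial.quotientSpanCXSubCAlgEquiv (h.eval a) a).toRingEquiv⟩

end Pool.Agent.W2helper84.TQ
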