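import Mathlib
import Pool.Agent.W2helper42.TQ.Stm

/-!
# Piece DIM of project TQ
-/

set_option autoImplicit false

namespace Pool.Agent.W2helper84.TQ

open Pool.Agent.W2helper42.TQ Order

theorem dim_loc (R : Type) [CommRing R] (a : R) :
    ringKrullDim (Localization.Away a) ≤ ringKrullDim R := by
  refine krullDim_le_of_strictMono (PrimeSpectrum.comap (algebraMap R (Localization.Away a))) ?_
  refine Monotone.strictMono_of_injective ?_
    (PrimeSpectrum.localization_comap_injective _ (Submonoid.powers a))
  intro x y hxy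
  exact Ideal.comap_mono hxy

theorem dim_int (R S : Type) [CommRing R] [CommRing S] [Algebra R S]
    (h : Algebra.IsIntegral R S) :
    ringKrullDim S ≤ ringKrullDim R := by
  refine krullDim_le_of_strictMono (PrimeSpectrum.comap (algebraMap R S)) ?_
  intro x y hxy
  have h1 : x.asIdeal < y.asIdeal := hxy
  obtain ⟨z, hz1, hz2⟩ := Set.exists_of_ssubset h1
  have := Ideal.comap_lt_comap_of_integral_mem_sdiff (R := R) (I := x.asIdeal) (J := y.asIdeal)
    h1.le ⟨hz1, hz2⟩ (h.isIntegral z)
  exact this

theorem s_DIM : S_DIM := by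
  refine ⟨?_, ?_, ?_, ?_⟩
  · intro R S _ _ e h
    rwa [← ringKrullDim_eq_of_ringEquiv e]
  · intro R _ I h
    exact (ringKrullDim_quotient_le I).trans h
  · intro R _ a h
    exact (dim_loc R a).trans h
  · intro R _ f hf h
    have : Module.Finite R (AdjoinRoot f) := hf.finite_adjoinRoot
    exact (dim_int R (AdjoinRoot f) inferInstance).trans h

end Pool.Agent.W2helper84.TQ
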